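import Pool.Agent.Y750.BT.Hk

/-!
# Embedded `d`-ary trees in percolation: discontinuity with probability one

Let `d ≥ 2` and let `G` be a countable, locally finite, quasi-transitive graph which contains a
full `d`-ary tree.  Then the probability `P_p(E_d)` that some open cluster of Bernoulli bond
percolation contains a full `d`-ary tree is `0` for `p < p_d` and `1` for `p ≥ p_d`, in particular
it is `1` AT the critical value, and for every `p ≥ p_d` some vertex is the root of an open
`d`-ary tree with probability at least `k ^ (-d / (d - 1))`, where `k` bounds the degrees.  This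
applies to the `k`-regular planar triangulation for `k ≥ 7`, `2 ≤ d ≤ k - 5`.
-/

set_option autoImplicit false

open MeasureTheory ProbabilityTheory

namespace Pool.Agent.Results.MP_950aae_pr.ProbabilityOne

open Pool.Agent.Results.MP_950aae_pr.FirstOrder (percMeasure openGraph H sg Dyck)

/-- The full `d`-ary tree: its vertices are the finite words in the letters `0, …, d - 1`, the root
is the empty word, and the children of the word `w` are the words `i :: w`. -/
def dTree (d : ℕ) : SimpleGraph (List (Fin d)) := SimpleGraph.fromRel (fun w w' => ∃ i, w' = i :: w)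

/-- The event `E_d`: some open cluster (connected component of the open subgraph) contains a
subgraph isomorphic to the full `d`-ary tree. -/
def dEvent {V : Type} (d : ℕ) (G : SimpleGraph V) : Set (G.edgeSet → Bool) :=
  {ω | ∃ C : (openGraph G ω).ConnectedComponent, (dTree d).IsContained C.toSimpleGraph}

/-- The critical value `p_d = inf {p ∈ [0,1] : P_p(E_d) = 1}`. -/
noncomputable def pd {V : Type} (d : ℕ) (G : SimpleGraph V) : unitInterval :=
  sInf {p : unitInterval | percMeasure G.edgeSet p (dEvent d G) = 1}

/-- The event that `v` is the root of an open full `d`-ary tree. -/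
def rooted {V : Type} (d : ℕ) (G : SimpleGraph V) (v : V) : Set (G.edgeSet → Bool) :=
  {ω | ∃ f : List (Fin d) → V, f [] = v ∧ Function.Injective f ∧
    ∀ w i, (openGraph G ω).Adj (f w) (f (i :: w))}

/-- `G` is quasi-transitive: its automorphism group has finitely many orbits of vertices. -/
def QuasiTransitive {V : Type} (G : SimpleGraph V) : Prop :=
  ∃ S : Finset V, ∀ v, ∃ s ∈ S, ∃ φ : G ≃g G, φ s = v

theorem degree_aut {V : Type} (G : SimpleGraph V) (φ : G ≃g G) (v : V) :
    (G.neighborSet (φ v)).ncard = (G.neighborSet v).ncard := by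
  have : G.neighborSet (φ v) = φ '' G.neighborSet v := by
    ext w
    simp only [SimpleGraph.mem_neighborSet, Set.mem_image]
    constructor
    · intro h
      refine ⟨φ.symm w, ?_, by simp⟩
      rw [← φ.map_adj_iff]
      simpa using h
    · rintro ⟨x, hx, rfl⟩
      exact φ.map_adj_iff.2 hx
  rw [this, Set.ncard_image_of_injective _ φ.injective]

theorem ncard_degree {V : Type} (G : SimpleGraph V) [G.LocallyFinite] (v : V) :
    G.degree v = (G.neighborSet v).ncard := by
  rw [← SimpleGraph.card_neighborSet_eq_degree, ← Nat.card_eq_fintype_card,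
    Nat.card_coe_set_eq]

/-- **Result.**  (1) Let `d ≥ 2` and let `G` be a countable, locally finite, quasi-transitive graph
containing a full `d`-ary tree.  Then `P_p(E_d) = 0` for `p < p_d` and `P_p(E_d) = 1` for
`p ≥ p_d`; if all degrees are at most `k`, then for every `p ≥ p_d` there is a vertex `v` with
`P_p(v is the root of an open d-ary tree) ^ (d - 1) ≥ k ^ (-d)`.
(2) The `k`-regular planar triangulation, `k ≥ 7`, contains a full `d`-ary tree for every
`2 ≤ d ≤ k - 5`, so that `P_p(E_d) = 0` for `p < p_d` and `P_p(E_d) = 1` for `p ≥ p_d`, and for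
`p ≥ p_d` EVERY vertex is the root of an open `d`-ary tree with probability at least
`k ^ (-d / (d - 1))`. -/
theorem result :
    (∀ (V : Type) [Countable V] (G : SimpleGraph V) (d : ℕ), 2 ≤ d →
      (∀ v, (G.neighborSet v).Finite) → QuasiTransitive G → (dTree d).IsContained G →
      (∀ p : unitInterval, p < pd d G → percMeasure G.edgeSet p (dEvent d G) = 0) ∧
      (∀ p : unitInterval, pd d G ≤ p → percMeasure G.edgeSet p (dEvent d G) = 1) ∧
      (∀ k : ℕ, (∀ v, (G.neighborSet v).ncard ≤ k) → ∀ p : unitInterval, pd d G ≤ p →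
        ∃ v, 1 ≤ (k : ℝ) ^ d * (percMeasure G.edgeSet p).real (rooted d G v) ^ (d - 1))) ∧
    (∀ k d : ℕ, 7 ≤ k → 2 ≤ d → d ≤ k - 5 →
      (dTree d).IsContained (H k) ∧
      (∀ p : unitInterval, p < pd d (H k) → percMeasure (H k).edgeSet p (dEvent d (H k)) = 0) ∧
      (∀ p : unitInterval, pd d (H k) ≤ p → percMeasure (H k).edgeSet p (dEvent d (H k)) = 1) ∧
      (∀ p : unitInterval, pd d (H k) ≤ p → ∀ v,
        1 ≤ (k : ℝ) ^ d * (percMeasure (H k).edgeSet p).real (rooted d (H k) v) ^ (d - 1))) := by
  constructor
  · intro V _ G d hd hloc hq hT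
    obtain ⟨S, hS⟩ := hq
    let _ : G.LocallyFinite := fun v => (hloc v).fintype
    have hk0 : ∀ v, G.degree v ≤ S.sup (fun s => G.degree s) := by
      intro v
      obtain ⟨s, hs, φ, hφ⟩ := hS v
      rw [ncard_degree, ← hφ, degree_aut, ← ncard_degree]
      exact Finset.le_sup (f := fun s => G.degree s) hs
    have hm := fun p => Pool.Agent.Y750.BT.main d hd G _ hk0 S hS hT p
    refine ⟨fun p hp => (hm p).1 hp, fun p hp => ((hm p).2 hp).1, fun k hk p hp => ?_⟩
    have hk' : ∀ v, G.degree v ≤ k := fun v => by rw [ncard_degree]; exact hk v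
    obtain ⟨-, s, -, h⟩ := (Pool.Agent.Y750.BT.main d hd G k hk' S hS hT p).2 hp
    exact ⟨s, h⟩
  · intro k d hk hd hdk
    let _ := Pool.Agent.Results.MP_950aae_pr.FirstOrder.locFin hk
    have hT := Pool.Agent.Y750.BT.contained hk hdk
    have hk' : ∀ v, (H k).degree v ≤ k := by
      intro v
      rw [← SimpleGraph.card_neighborSet_eq_degree, ← Nat.card_eq_fintype_card]
      exact (Pool.Agent.Results.MP_950aae_pr.FirstOrder.nbr_finite (by omega) v).2
    have htr := Pool.Agent.Results.MP_950aae_pr.FirstOrder.trans (k := k)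
    have hS : ∀ v, ∃ s ∈ ({QuotientGroup.mk 1} : Finset (Dyck k ⧸ Subgroup.zpowers (sg k))),
        ∃ φ : H k ≃g H k, φ s = v := by
      intro v
      exact ⟨_, Finset.mem_singleton_self _, htr _ v⟩
    have hm := fun p => Pool.Agent.Y750.BT.main d hd (H k) k hk' _ hS hT p
    refine ⟨hT, fun p hp => (hm p).1 hp, fun p hp => ((hm p).2 hp).1, fun p hp v => ?_⟩
    obtain ⟨-, s, -, h⟩ := (hm p).2 hp
    obtain ⟨φ, hφ⟩ := htr s v
    refine h.trans (le_of_eq ?_)
    have e : (percMeasure (H k).edgeSet p).real (Pool.Agent.Y750.BT.Einf d (H k) s) =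
        (percMeasure (H k).edgeSet p).real (rooted d (H k) v) := by
      rw [← hφ]
      exact (Pool.Agent.Y750.BT.Einf_aut d (H k) φ p s).symm
    rw [e]

end Pool.Agent.Results.MP_950aae_pr.ProbabilityOne
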